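import Mathlib

/-!
# Every vertical line contains infinitely many primitive resonant wavevectors

For integers `s, k` put `A = s (2 k - 1)` and `B = k ^ 2 - k - s ^ 2`.  Then the quadruple
`(A, A ^ 2 + B ^ 2 + B, k A - s b, s A + k b)` (with `b` the second entry) solves the resonance
equation.  For a given positive integer `a` we choose `s` and `k` such that `A = a g` and
`B = g`; then the quadruple is divisible by `g` and has first entry `a` after division.
Such `s, k` come from the Pell equation for `a ^ 2 + 1`.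
-/

namespace Pool.Agent.Results.MP_bbf25a_nt.VerticalLines

/-- The cleared-denominator resonance equation of the problem. -/
def Resonant (a b x y : ℤ) : Prop :=
  x * (a ^ 2 + b ^ 2) * (a ^ 2 + b ^ 2 - 2 * a * x - 2 * b * y) =
    a * (x ^ 2 + y ^ 2) * (x ^ 2 + y ^ 2 - 2 * a * x - 2 * b * y)

/-- The primitive wavevector set of the problem. -/
def LamPrim : Set (ℤ × ℤ) :=
  {v | ∃ x y : ℤ, Resonant v.1 v.2 x y ∧ v.1 * x * (v.1 - x) ≠ 0 ∧
    Nat.gcd (Int.gcd v.1 v.2) (Int.gcd x y) = 1}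

theorem resonant_general (s k A b : ℤ) (hA : A = s * (2 * k - 1))
    (hb : b = A ^ 2 + (k ^ 2 - k - s ^ 2) ^ 2 + (k ^ 2 - k - s ^ 2)) :
    Resonant A b (k * A - s * b) (s * A + k * b) := by
  subst hb
  subst hA
  unfold Resonant
  ring

theorem resonant_scale (g a b x y : ℤ) (hg : g ≠ 0)
    (h : Resonant (g * a) (g * b) (g * x) (g * y)) : Resonant a b x y := by
  unfold Resonant at h ⊢
  have h5 : g ^ 5 ≠ 0 := pow_ne_zero 5 hg
  apply mul_left_cancel₀ h5
  linear_combination h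

theorem exists_pell (a : ℤ) (ha : 0 < a) (N : ℕ) :
    ∃ c w : ℤ, 0 ≤ c ∧ (N : ℤ) + 1 ≤ w ∧ c ^ 2 + c = a ^ 2 * (a ^ 2 + 1) * w ^ 2 := by
  induction N with
  | zero => exact ⟨a ^ 2, 1, by positivity, by norm_num, by ring⟩
  | succ N ih =>
    obtain ⟨c, w, hc, hw, h⟩ := ih
    refine ⟨(2 * a ^ 2 + 1) * c + a ^ 2 + 2 * a ^ 2 * (a ^ 2 + 1) * w,
      2 * c + 1 + (2 * a ^ 2 + 1) * w, ?_, ?_, ?_⟩
    · have hw0 : 0 ≤ w := by
        have : (0 : ℤ) ≤ (N : ℤ) := Int.natCast_nonneg N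
        linarith
      positivity
    · have hN : (0 : ℤ) ≤ (N : ℤ) := Int.natCast_nonneg N
      have hw0 : 0 ≤ w := by linarith
      have h2 : 0 ≤ a ^ 2 * w := by positivity
      push_cast
      nlinarith
    · linear_combination h

theorem member (a c w : ℤ) (ha : 0 < a) (hc : 0 ≤ c) (hw : 1 ≤ w)
    (h : c ^ 2 + c = a ^ 2 * (a ^ 2 + 1) * w ^ 2) :
    ((a, (a ^ 2 + 1) * (a * w * (2 * c + 1 + 2 * a * w)) + 1) : ℤ × ℤ) ∈ LamPrim := by
  obtain ⟨n, hn⟩ : ∃ n : ℤ, n = 2 * c + 1 + 2 * a * w := ⟨_, rfl⟩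
  obtain ⟨g, hg⟩ : ∃ g : ℤ, g = a * w * n := ⟨_, rfl⟩
  obtain ⟨b, hb⟩ : ∃ b : ℤ, b = (a ^ 2 + 1) * g + 1 := ⟨_, rfl⟩
  obtain ⟨k, hk⟩ : ∃ k : ℤ, k = c + 1 + a * w := ⟨_, rfl⟩
  obtain ⟨s, hs⟩ : ∃ s : ℤ, s = a ^ 2 * w := ⟨_, rfl⟩
  have hw0 : 0 < w := by linarith
  have haw : 0 < a * w := mul_pos ha hw0
  have hk1 : 1 ≤ k := by rw [hk]; linarith
  have hnk : n = 2 * k - 1 := by rw [hn, hk]; ring
  have hn1 : 1 ≤ n := by rw [hnk]; linarith
  have hnk2 : k ≤ n := by rw [hnk]; linarith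
  have hgpos : 0 < g := by rw [hg]; exact mul_pos haw (by linarith)
  have hB : k ^ 2 - k - s ^ 2 = g := by
    rw [hg, hk, hs, hn]
    linear_combination h
  have hA : g * a = s * (2 * k - 1) := by
    rw [hg, hs, ← hnk]
    ring
  have hbb : g * b = (g * a) ^ 2 + (k ^ 2 - k - s ^ 2) ^ 2 + (k ^ 2 - k - s ^ 2) := by
    rw [hB, hb]
    ring
  have hres0 := resonant_general s k (g * a) (g * b) hA hbb
  have hres1 : Resonant (g * a) (g * b) (g * (k * a - s * b)) (g * (s * a + k * b)) := by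
    have e1 : g * (k * a - s * b) = k * (g * a) - s * (g * b) := by ring
    have e2 : g * (s * a + k * b) = s * (g * a) + k * (g * b) := by ring
    rw [e1, e2]
    exact hres0
  have hres : Resonant a b (k * a - s * b) (s * a + k * b) :=
    resonant_scale g a b _ _ hgpos.ne' hres1
  have hbe : (a ^ 2 + 1) * (a * w * (2 * c + 1 + 2 * a * w)) + 1 = b := by
    rw [hb, hg, hn]
  rw [hbe]
  have hs1 : 1 ≤ s := by
    rw [hs]
    have : 0 < a ^ 2 * w := by positivity
    linarith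
  have hga : a * k ≤ g := by
    rw [hg]
    have h1 : a * k ≤ a * n := mul_le_mul_of_nonneg_left hnk2 ha.le
    have h2 : a * n ≤ a * w * n := by nlinarith [mul_pos ha (by linarith : (0 : ℤ) < n)]
    linarith
  have hbg : g < b := by
    rw [hb]
    nlinarith [mul_pos (pow_pos ha 2) hgpos]
  have hbpos : 0 < b := by linarith
  have hx : k * a - s * b < 0 := by
    have h1 : b ≤ s * b := by nlinarith
    nlinarith
  refine ⟨k * a - s * b, s * a + k * b, hres, ?_, ?_⟩
  · have h1 : a ≠ 0 := ha.ne'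
    have h2 : k * a - s * b ≠ 0 := hx.ne
    have h3 : a - (k * a - s * b) ≠ 0 := by
      have : 0 < a - (k * a - s * b) := by linarith
      exact this.ne'
    exact mul_ne_zero (mul_ne_zero h1 h2) h3
  · have hcop : Int.gcd a b = 1 := by
      rw [← Int.isCoprime_iff_gcd_eq_one]
      refine ⟨-((a ^ 2 + 1) * (w * n)), 1, ?_⟩
      rw [hb, hg]
      ring
    show Nat.gcd (Int.gcd a b) _ = 1
    rw [hcop]
    exact Nat.gcd_one_left _

theorem infinite_pos (a : ℤ) (ha : 0 < a) : {b : ℤ | ((a, b) : ℤ × ℤ) ∈ LamPrim}.Infinite := by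
  apply Set.infinite_of_forall_exists_gt
  intro M
  obtain ⟨c, w, hc, hw, h⟩ := exists_pell a ha M.toNat
  have hMN : M ≤ (M.toNat : ℤ) := Int.self_le_toNat M
  have hw1 : 1 ≤ w := by
    have : (0 : ℤ) ≤ (M.toNat : ℤ) := Int.natCast_nonneg _
    linarith
  refine ⟨(a ^ 2 + 1) * (a * w * (2 * c + 1 + 2 * a * w)) + 1, member a c w ha hc hw1 h, ?_⟩
  have haw : w ≤ a * w := by nlinarith
  have h1 : 1 ≤ 2 * c + 1 + 2 * a * w := by nlinarith
  have h2 : w ≤ a * w * (2 * c + 1 + 2 * a * w) := by nlinarith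
  have h3 : a * w * (2 * c + 1 + 2 * a * w) ≤
      (a ^ 2 + 1) * (a * w * (2 * c + 1 + 2 * a * w)) := by
    have : 0 ≤ a ^ 2 * (a * w * (2 * c + 1 + 2 * a * w)) := by
      apply mul_nonneg (by positivity)
      linarith
    linarith
  linarith

/-- For every nonzero integer `a` there are infinitely many integers `b` with `(a, b)` in the
primitive wavevector set. -/
theorem result (a : ℤ) (ha : a ≠ 0) : {b : ℤ | ((a, b) : ℤ × ℤ) ∈ LamPrim}.Infinite := by
  rcases lt_or_gt_of_ne ha with hneg | hpos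
  · have h := infinite_pos (-a) (by linarith)
    have h2 := h.image (f := fun b : ℤ => -b) (neg_injective.injOn)
    refine h2.mono ?_
    rintro b ⟨b', ⟨x, y, hres, hne, hgcd⟩, rfl⟩
    refine ⟨-x, -y, ?_, ?_, ?_⟩
    · simp only [Resonant] at hres ⊢
      linear_combination -hres
    · intro h0
      apply hne
      simp only at h0 ⊢
      linear_combination -h0
    · have e1 : Int.gcd a (-b') = Int.gcd (-a) b' := by
        rw [Int.gcd_neg, Int.neg_gcd]
      have e2 : Int.gcd (-x) (-y) = Int.gcd x y := by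
        rw [Int.gcd_neg, Int.neg_gcd]
      show Nat.gcd (Int.gcd a (-b')) (Int.gcd (-x) (-y)) = 1
      rw [e1, e2]
      exact hgcd
  · exact infinite_pos a hpos

end Pool.Agent.Results.MP_bbf25a_nt.VerticalLines
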